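import Pool.Agent.Helper20.IIC.Stmts

/-! # Module CMPI: the comparison inequality for the source at infinity -/

namespace IIC

open Filter Topology Set
open scoped BigOperators

variable {d : ℕ}

lemma cmpi_nrm_const (hd : 1 ≤ d) (n : ℕ) : nrm (fun _ : Fin d => (n : ℤ)) = n := by
  unfold nrm
  apply le_antisymm
  · apply Finset.sup_le
    intro i _
    simp
  · have := Finset.le_sup (f := fun i : Fin d => ((n : ℤ)).natAbs) (Finset.mem_univ (⟨0, hd⟩ : Fin d))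
    simpa using this

lemma cmpi_finite (d n : ℕ) : {z : Fin d → ℤ | nrm z < n}.Finite := by
  apply (Set.finite_Icc (fun _ : Fin d => -(n : ℤ)) (fun _ => (n : ℤ))).subset
  intro z hz
  have hz' : nrm z < n := hz
  have h : ∀ i, (z i).natAbs < n := fun i => by
    have := Finset.le_sup (f := fun i => (z i).natAbs) (Finset.mem_univ i)
    exact lt_of_le_of_lt this hz'
  constructor
  · intro i
    show -(n : ℤ) ≤ z i
    have := h i
    omega
  · intro i
    show z i ≤ (n : ℤ)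
    have := h i
    omega

lemma cmpi_infinite (hd : 1 ≤ d) (n : ℕ) : {z : Fin d → ℤ | n ≤ nrm z}.Infinite := by
  intro hfin
  have hinj : Function.Injective (fun (m : ℕ) => (fun _ : Fin d => ((n + m : ℕ) : ℤ))) := by
    intro a b h
    have := congrFun h ⟨0, hd⟩
    simp only at this
    omega
  have h2 : (range (fun (m : ℕ) => (fun _ : Fin d => ((n + m : ℕ) : ℤ)))).Infinite :=
    Set.infinite_range_of_injective hinj
  apply h2
  apply hfin.subset
  rintro _ ⟨m, rfl⟩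
  show n ≤ nrm _
  rw [cmpi_nrm_const hd]
  omega

/-- a point far away plays the role of infinity -/
lemma cmpi_far (hLATC : ST_LATC) (hd : 2 ≤ d) (Λ : Finset (Ed d)) :
    ∃ y : Fin d → ℤ, ∀ T : Finset (Ed d), T ⊆ Λ → ∀ x : Fin d → ℤ,
      (exw Λ T ∈ CN x y ↔ exw Λ T ∈ IN x) := by
  classical
  obtain ⟨-, h2, -⟩ := hLATC d hd
  choose n hn using h2 Λ
  obtain ⟨N, hN⟩ : ∃ N : ℕ, N = Λ.powerset.sup n := ⟨_, rfl⟩
  refine ⟨fun _ => (N : ℤ), fun T hT x => ?_⟩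
  have hnT : n T ≤ N := by
    rw [hN]
    exact Finset.le_sup (f := n) (Finset.mem_powerset.mpr hT)
  have hy : nrm (fun _ : Fin d => (N : ℤ)) = N := cmpi_nrm_const (by omega) N
  constructor
  · intro h
    have h' : LConn (exw Λ T) x (fun _ => (N : ℤ)) := h
    show {z | LConn (exw Λ T) x z}.Infinite
    apply (cmpi_infinite (d := d) (by omega) N).mono
    intro z hz
    have hz' : N ≤ nrm z := hz
    exact Relation.ReflTransGen.trans h' (hn T _ _ (by rw [hy]; exact hnT) (hnT.trans hz'))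
  · intro h
    have h' : {z | LConn (exw Λ T) x z}.Infinite := h
    obtain ⟨z, hz, hz2⟩ := (h'.sdiff (cmpi_finite d N)).nonempty
    have hz3 : N ≤ nrm z := not_lt.mp hz2
    have hz4 : LConn (exw Λ T) x z := hz
    show LConn (exw Λ T) x _
    exact Relation.ReflTransGen.trans hz4 (hn T _ _ (hnT.trans hz3) (by rw [hy]; exact hnT))

lemma cmpi_cyl (F : Finset (Ed d)) : IsCyl (EF F) := by
  refine ⟨F, fun ω ω' h => ?_⟩
  constructor
  · intro h1 e he
    rw [← h e he]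
    exact h1 e he
  · intro h1 e he
    rw [h e he]
    exact h1 e he

theorem st_CMPI (hFINL : ST_FINL) (hLIM : ST_LIM) (hTWB : ST_TWB) (hLATC : ST_LATC)
    (hCONT : ST_CONT) (hUPS : ST_UPS) : ST_CMPI := by
  intro d hd β hβ hth F W w D hw hsum hD
  obtain ⟨⟨-, -, -, hneg, -, -, -⟩, hmW, hmI, hpos, -⟩ := hTWB d hd β hβ.le
  have hS2 : ∀ x : Fin d → ℤ, 0 < S2 β x := hpos hβ
  have hsw : ∀ u v : Fin d → ℤ, S2 β (v - u) = S2 β (u - v) := fun u v => by
    rw [← hneg (u - v), neg_sub]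
  obtain ⟨hL1, hL2⟩ := hLIM d β hβ.le
  have tI : ∀ x : Fin d → ℤ, Tendsto (fun Λ : Finset (Ed d) => PW β Λ (IN x)) atTop
      (𝓝 (th d β)) := fun x => by
    have := (hL1 (IN x) (hUPS d x x ∅).2.1).1
    rwa [hmI x] at this
  have tC : ∀ x z : Fin d → ℤ, Tendsto (fun Λ : Finset (Ed d) => PW β Λ (CN x z)) atTop
      (𝓝 (S2 β (z - x))) := fun x z => by
    have := (hL1 (CN x z) (hUPS d x z ∅).1).1
    rwa [hmW x z] at this
  have tC0 : ∀ z : Fin d → ℤ, Tendsto (fun Λ : Finset (Ed d) => PW β Λ (CN 0 z)) atTop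
      (𝓝 (S2 β z)) := fun z => by
    have := tC 0 z
    rwa [sub_zero] at this
  have tEI : Tendsto (fun Λ : Finset (Ed d) => PW β Λ (EF F ∩ IN 0)) atTop
      (𝓝 (lW β (EF F ∩ IN (0 : Fin d → ℤ)))) :=
    (hL2 (EF F) (IN 0) (cmpi_cyl F) (hUPS d 0 0 ∅).2.1).1
  have tEC : ∀ u : Fin d → ℤ, Tendsto (fun Λ : Finset (Ed d) => PW β Λ (EF F ∩ CN 0 u)) atTop
      (𝓝 (lW β (EF F ∩ CN 0 u))) := fun u =>
    (hL2 (EF F) (CN 0 u) (cmpi_cyl F) (hUPS d 0 u ∅).1).1
  have pI : ∀ (Λ : Finset (Ed d)) (x : Fin d → ℤ), 0 < PW β Λ (IN x) := fun Λ x => by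
    have := (hL1 (IN x) (hUPS d x x ∅).2.1).2.2.2 Λ
    rw [hmI x] at this
    exact hth.trans_le this
  have pC : ∀ (Λ : Finset (Ed d)) (z : Fin d → ℤ), 0 < PW β Λ (CN 0 z) := fun Λ z => by
    have := (hL1 (CN 0 z) (hUPS d 0 z ∅).1).2.2.2 Λ
    exact (hS2 z).trans_le this
  -- finite volume
  have hfin : ∀ (Λ : Finset (Ed d)), F ⊆ Λ → ∀ D' : ℝ,
      (∀ u ∈ W, ∑ z ∈ vts F, PW β Λ (CN u z) * PW β Λ (IN z) ≤ D' * PW β Λ (IN u)) →
      |PW β Λ (EF F ∩ IN 0) / PW β Λ (IN 0) -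
        ∑ u ∈ W, w u * (PW β Λ (EF F ∩ CN 0 u) / PW β Λ (CN 0 u))| ≤
      Real.sqrt (∑ u ∈ W, ∑ v ∈ W, w u * w v *
        (PW β Λ (IN 0) * PW β Λ (CN u v) * (1 / (PW β Λ (CN 0 u) * PW β Λ (IN v)) +
          1 / (PW β Λ (CN 0 v) * PW β Λ (IN u)))) - 1) + D' := by
    intro Λ hF D' hD'
    obtain ⟨y, hy⟩ := cmpi_far hLATC hd Λ
    obtain ⟨-, hc⟩ := hCONT d Λ
    obtain ⟨-, -, -, -, hcong⟩ := hc β hβ.le
    have e1 : ∀ x : Fin d → ℤ, PW β Λ (CN x y) = PW β Λ (IN x) := fun x =>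
      hcong _ _ fun T hT => hy T hT x
    have e2 : PW β Λ (EF F ∩ CN 0 y) = PW β Λ (EF F ∩ IN 0) := by
      apply hcong
      intro T hT
      rw [mem_inter_iff, mem_inter_iff, hy T hT 0]
    have := hFINL d hd β hβ.le Λ F hF 0 y W w D' (fun x z => PW β Λ (CN x z))
      (fun x z => PW β Λ (EF F ∩ CN x z)) (fun _ _ => rfl) (fun _ _ => rfl) hw hsum
      (by simp only [e1]; exact pI Λ 0)
      (fun u _ => by simp only [e1]; exact ⟨pC Λ u, pI Λ u⟩)
      (fun u hu => by simp only [e1]; exact hD' u hu)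
    simp only [e1, e2] at this
    exact this
  -- passage to the limit
  apply le_of_forall_pos_le_add
  intro δ hδ
  have hev : ∀ᶠ Λ : Finset (Ed d) in atTop, ∀ u ∈ W,
      ∑ z ∈ vts F, PW β Λ (CN u z) * PW β Λ (IN z) ≤ (D + δ) * PW β Λ (IN u) := by
    rw [Filter.eventually_all_finset]
    intro u hu
    have t1 : Tendsto (fun Λ : Finset (Ed d) => ∑ z ∈ vts F, PW β Λ (CN u z) * PW β Λ (IN z))
        atTop (𝓝 (∑ z ∈ vts F, S2 β (z - u) * th d β)) :=
      tendsto_finsetSum _ fun z _ => (tC u z).mul (tI z)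
    have t2 : Tendsto (fun Λ : Finset (Ed d) => (D + δ) * PW β Λ (IN u)) atTop
        (𝓝 ((D + δ) * th d β)) := (tI u).const_mul _
    have h1 : ∑ z ∈ vts F, S2 β (z - u) * th d β < (D + δ) * th d β := by
      rw [← Finset.sum_mul]
      apply mul_lt_mul_of_pos_right _ hth
      have h2 := hD u hu
      have h3 : ∑ z ∈ vts F, S2 β (z - u) = ∑ z ∈ vts F, S2 β (u - z) :=
        Finset.sum_congr rfl fun z _ => hsw u z
      rw [h3]
      linarith
    exact (t1.eventually_lt t2 h1).mono fun Λ h => h.le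
  have hev2 : ∀ᶠ Λ : Finset (Ed d) in atTop, F ⊆ Λ := eventually_ge_atTop F
  have tL : Tendsto (fun Λ : Finset (Ed d) => |PW β Λ (EF F ∩ IN 0) / PW β Λ (IN 0) -
      ∑ u ∈ W, w u * (PW β Λ (EF F ∩ CN 0 u) / PW β Λ (CN 0 u))|) atTop
      (𝓝 |lW β (EF F ∩ IN 0) / th d β - ∑ u ∈ W, w u * (lW β (EF F ∩ CN 0 u) / S2 β u)|) := by
    apply Tendsto.abs
    refine (tEI.div (tI 0) hth.ne').sub (tendsto_finsetSum _ fun u _ => ?_)
    exact ((tEC u).div (tC0 u) (hS2 u).ne').const_mul _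
  have tR : Tendsto (fun Λ : Finset (Ed d) => Real.sqrt (∑ u ∈ W, ∑ v ∈ W, w u * w v *
        (PW β Λ (IN 0) * PW β Λ (CN u v) * (1 / (PW β Λ (CN 0 u) * PW β Λ (IN v)) +
          1 / (PW β Λ (CN 0 v) * PW β Λ (IN u)))) - 1) + (D + δ)) atTop
      (𝓝 (Real.sqrt (∑ u ∈ W, ∑ v ∈ W, w u * w v * (S2 β (u - v) *
        (1 / S2 β u + 1 / S2 β v)) - 1) + (D + δ))) := by
    apply Tendsto.add_const
    apply Tendsto.sqrt
    apply Tendsto.sub_const
    refine tendsto_finsetSum _ fun u _ => tendsto_finsetSum _ fun v _ => ?_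
    apply Tendsto.const_mul
    have h1 : S2 β (u - v) * (1 / S2 β u + 1 / S2 β v) =
        th d β * S2 β (v - u) * (1 / (S2 β u * th d β) + 1 / (S2 β v * th d β)) := by
      rw [hsw u v]
      have := (hS2 u).ne'
      have := (hS2 v).ne'
      have := hth.ne'
      field_simp
    rw [h1]
    refine ((tI 0).mul (tC u v)).mul (Tendsto.add ?_ ?_)
    · exact tendsto_const_nhds.div ((tC0 u).mul (tI v)) (mul_pos (hS2 u) hth).ne'
    · exact tendsto_const_nhds.div ((tC0 v).mul (tI u)) (mul_pos (hS2 v) hth).ne'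
  have := le_of_tendsto_of_tendsto tL tR (by
    filter_upwards [hev, hev2] with Λ h1 h2
    exact hfin Λ h2 (D + δ) h1)
  linarith

end IIC
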