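import Pool.Agent.Helper20.IIC.Stmts

/-! # Module LIM: infinite volume limits -/

namespace IIC

open Filter Topology Set
open scoped BigOperators

variable {d : ℕ}

/-- good events -/
def lim_Good (D : Set (Cfg d)) : Prop :=
  ∀ β : ℝ, 0 ≤ β → Tendsto (fun Λ : Finset (Ed d) => PW β Λ D) atTop (𝓝 (lW β D)) ∧
    Tendsto (fun b => lW b D) (𝓝[>] β) (𝓝 (lW β D))

lemma lim_comb (D D₁ D₂ D₃ : Set (Cfg d)) (h₁ : lim_Good D₁) (h₂ : lim_Good D₂)
    (h₃ : lim_Good D₃)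
    (h : ∀ β : ℝ, 0 ≤ β → ∀ Λ : Finset (Ed d), PW β Λ D = PW β Λ D₁ + PW β Λ D₂ - PW β Λ D₃) :
    lim_Good D := by
  have key : ∀ β : ℝ, 0 ≤ β → Tendsto (fun Λ : Finset (Ed d) => PW β Λ D) atTop
      (𝓝 (lW β D₁ + lW β D₂ - lW β D₃)) := by
    intro β hβ
    have := (((h₁ β hβ).1.add (h₂ β hβ).1).sub (h₃ β hβ).1)
    exact this.congr fun Λ => (h β hβ Λ).symm
  have key2 : ∀ β : ℝ, 0 ≤ β → lW β D = lW β D₁ + lW β D₂ - lW β D₃ := fun β hβ =>
    (key β hβ).limUnder_eq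
  intro β hβ
  refine ⟨by rw [key2 β hβ]; exact key β hβ, ?_⟩
  rw [key2 β hβ]
  have := (((h₁ β hβ).2.add (h₂ β hβ).2).sub (h₃ β hβ).2)
  refine this.congr' ?_
  filter_upwards [self_mem_nhdsWithin] with b hb
  exact (key2 b (hβ.trans (le_of_lt hb))).symm

lemma lim_nonneg (hCONT : ST_CONT) (β : ℝ) (hβ : 0 ≤ β) (Λ : Finset (Ed d)) (A : Set (Cfg d)) :
    0 ≤ PW β Λ A := by
  obtain ⟨-, h⟩ := hCONT d Λ
  obtain ⟨-, h0, hm, -⟩ := h β hβ
  rw [← h0]
  exact hm _ _ (empty_subset _)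

lemma lim_bdd (hCONT : ST_CONT) (β : ℝ) (hβ : 0 ≤ β) (A : Set (Cfg d)) :
    BddBelow (range fun Λ : Finset (Ed d) => PW β Λ A) :=
  ⟨0, by rintro _ ⟨Λ, rfl⟩; exact lim_nonneg hCONT β hβ Λ A⟩

lemma lim_upper (hMON : ST_MON) (hBMON : ST_BMON) (hCONT : ST_CONT) (β : ℝ) (hβ : 0 ≤ β)
    (A : Set (Cfg d)) (hA : IsUpperSet A) :
    Tendsto (fun Λ : Finset (Ed d) => PW β Λ A) atTop (𝓝 (mW β A)) ∧
      Tendsto (fun b => mW b A) (𝓝[>] β) (𝓝 (mW β A)) ∧ lW β A = mW β A ∧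
      ∀ Λ : Finset (Ed d), mW β A ≤ PW β Λ A := by
  have hanti : Antitone (fun Λ : Finset (Ed d) => PW β Λ A) := fun Λ Λ' h =>
    hMON d β hβ Λ Λ' h A hA
  have h1 : Tendsto (fun Λ : Finset (Ed d) => PW β Λ A) atTop (𝓝 (mW β A)) :=
    tendsto_atTop_ciInf hanti (lim_bdd hCONT β hβ A)
  have h4 : ∀ b : ℝ, 0 ≤ b → ∀ Λ : Finset (Ed d), mW b A ≤ PW b Λ A := fun b hb Λ =>
    ciInf_le (lim_bdd hCONT b hb A) Λ
  refine ⟨h1, ?_, h1.limUnder_eq, h4 β hβ⟩
  rw [tendsto_order]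
  constructor
  · intro a ha
    filter_upwards [self_mem_nhdsWithin] with b hb
    have hb' : β < b := hb
    refine lt_of_lt_of_le ha ?_
    apply le_ciInf
    intro Λ
    exact (h4 β hβ Λ).trans (hBMON d β b hβ hb'.le Λ A hA)
  · intro a ha
    obtain ⟨Λ, hΛ⟩ := exists_lt_of_ciInf_lt (f := fun Λ : Finset (Ed d) => PW β Λ A) ha
    have hc := ((hCONT d Λ).1 A β hβ).mono (s := Ioi β) (fun b hb => hβ.trans (le_of_lt hb))
    have h5 : ∀ᶠ b in 𝓝[>] β, PW b Λ A < a := hc.eventually (gt_mem_nhds hΛ)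
    filter_upwards [h5, self_mem_nhdsWithin] with b hb hb'
    exact (h4 b (hβ.trans (le_of_lt hb')) Λ).trans_lt hb

lemma lim_good_upper (hMON : ST_MON) (hBMON : ST_BMON) (hCONT : ST_CONT) (A : Set (Cfg d))
    (hA : IsUpperSet A) : lim_Good A := by
  intro β hβ
  obtain ⟨h1, h2, h3, -⟩ := lim_upper hMON hBMON hCONT β hβ A hA
  rw [h3]
  refine ⟨h1, h2.congr' ?_⟩
  filter_upwards [self_mem_nhdsWithin] with b hb
  exact (lim_upper hMON hBMON hCONT b (hβ.trans (le_of_lt hb)) A hA).2.2.1.symm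

lemma lim_good_empty (hCONT : ST_CONT) : lim_Good (∅ : Set (Cfg d)) := by
  have h : ∀ β : ℝ, 0 ≤ β → Tendsto (fun Λ : Finset (Ed d) => PW β Λ ∅) atTop (𝓝 0) := by
    intro β hβ
    refine tendsto_const_nhds.congr fun Λ => ?_
    exact ((hCONT d Λ).2 β hβ).2.1.symm
  have h2 : ∀ β : ℝ, 0 ≤ β → lW β (∅ : Set (Cfg d)) = 0 := fun β hβ => (h β hβ).limUnder_eq
  intro β hβ
  rw [h2 β hβ]
  refine ⟨h β hβ, tendsto_const_nhds.congr' ?_⟩
  filter_upwards [self_mem_nhdsWithin] with b hb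
  exact (h2 b (hβ.trans (le_of_lt hb))).symm

lemma lim_cyl (hMON : ST_MON) (hBMON : ST_BMON) (hCONT : ST_CONT) (F : Finset (Ed d)) :
    ∀ C B : Set (Cfg d), (∀ ω ω' : Cfg d, (∀ e ∈ F, ω e = ω' e) → (ω ∈ C ↔ ω' ∈ C)) →
      IsUpperSet B → lim_Good (C ∩ B) := by
  classical
  induction F using Finset.induction_on with
  | empty =>
    intro C B hC hB
    by_cases h : ∃ ω, ω ∈ C
    · obtain ⟨ω, hω⟩ := h
      have : C = univ := by
        ext ω'
        simp only [mem_univ, iff_true]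
        exact (hC ω ω' (by simp)).mp hω
      rw [this, univ_inter]
      exact lim_good_upper hMON hBMON hCONT B hB
    · have : C = ∅ := by
        ext ω'
        simp only [mem_empty_iff_false, iff_false]
        exact fun h' => h ⟨ω', h'⟩
      rw [this, empty_inter]
      exact lim_good_empty hCONT
  | insert e F he ih =>
    intro C B hC hB
    obtain ⟨C₁, hC₁⟩ : ∃ C₁ : Set (Cfg d), C₁ = {ω | Function.update ω e true ∈ C} := ⟨_, rfl⟩
    obtain ⟨C₀, hC₀⟩ : ∃ C₀ : Set (Cfg d), C₀ = {ω | Function.update ω e false ∈ C} := ⟨_, rfl⟩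
    obtain ⟨U, hU⟩ : ∃ U : Set (Cfg d), U = {ω | ω e = true} := ⟨_, rfl⟩
    have hup : IsUpperSet (U ∩ B) := by
      apply IsUpperSet.inter _ hB
      rw [hU]
      intro ω ω' h hω
      have h1 := h e
      have h2 : ω e = true := hω
      rw [h2] at h1
      exact eq_top_iff.mpr h1
    have hdep : ∀ b : Bool, ∀ ω ω' : Cfg d, (∀ e ∈ F, ω e = ω' e) →
        (Function.update ω e b ∈ C ↔ Function.update ω' e b ∈ C) := by
      intro b ω ω' h
      apply hC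
      intro f hf
      by_cases hfe : f = e
      · rw [hfe, Function.update_self, Function.update_self]
      · rw [Function.update_of_ne hfe, Function.update_of_ne hfe]
        exact h f ((Finset.mem_insert.mp hf).resolve_left hfe)
    have g1 : lim_Good (C₁ ∩ (U ∩ B)) := ih C₁ (U ∩ B) (by rw [hC₁]; exact hdep true) hup
    have g2 : lim_Good (C₀ ∩ B) := ih C₀ B (by rw [hC₀]; exact hdep false) hB
    have g3 : lim_Good (C₀ ∩ (U ∩ B)) := ih C₀ (U ∩ B) (by rw [hC₀]; exact hdep false) hup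
    refine lim_comb _ _ _ _ g1 g2 g3 ?_
    intro β hβ Λ
    obtain ⟨-, h⟩ := hCONT d Λ
    obtain ⟨-, -, -, hadd, -⟩ := h β hβ
    have e1 : C ∩ B = (C₁ ∩ (U ∩ B)) ∪ (C₀ ∩ B ∩ Uᶜ) := by
      ext ω
      rw [hC₁, hC₀, hU]
      simp only [mem_inter_iff, mem_union, mem_setOf_eq, mem_compl_iff, Bool.not_eq_true]
      cases hω : ω e
      · have : Function.update ω e false = ω := by rw [← hω, Function.update_eq_self]
        rw [this]
        simp
      · have : Function.update ω e true = ω := by rw [← hω, Function.update_eq_self]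
        rw [this]
        simp
    have e2 : C₀ ∩ B = (C₀ ∩ (U ∩ B)) ∪ (C₀ ∩ B ∩ Uᶜ) := by
      ext ω
      simp only [mem_inter_iff, mem_union, mem_compl_iff]
      tauto
    have d1 : Disjoint (C₁ ∩ (U ∩ B)) (C₀ ∩ B ∩ Uᶜ) := by
      rw [Set.disjoint_left]
      rintro ω ⟨-, h1, -⟩ ⟨-, h2⟩
      exact h2 h1
    have d2 : Disjoint (C₀ ∩ (U ∩ B)) (C₀ ∩ B ∩ Uᶜ) := by
      rw [Set.disjoint_left]
      rintro ω ⟨-, h1, -⟩ ⟨-, h2⟩
      exact h2 h1
    have a1 := hadd _ _ d1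
    have a2 := hadd _ _ d2
    rw [← e1] at a1
    rw [← e2] at a2
    linarith

theorem st_LIM (hMON : ST_MON) (hBMON : ST_BMON) (hCONT : ST_CONT) : ST_LIM := by
  intro d β hβ
  refine ⟨fun A hA => lim_upper hMON hBMON hCONT β hβ A hA, ?_⟩
  rintro C B ⟨F, hF⟩ hB
  exact lim_cyl hMON hBMON hCONT F C B hF hB β hβ

end IIC
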