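import Pool.Agent.Helper20.IIC.Stmts

/-! # Module TWB: basic properties of the two point function -/

namespace IIC

open Filter Topology Set
open scoped BigOperators

/-! ### adding an edge -/

lemma twb_ncl {V E : Type} (ends : E → Sym2 V) (T : Set E) (e : E) :
    ncl ends T ≤ ncl ends (insert e T) + 1 := by
  classical
  obtain ⟨x, y, hxy⟩ : ∃ x y, ends e = s(x, y) := by
    induction h : ends e using Sym2.ind with
    | _ x y => exact ⟨x, y, rfl⟩
  have hwd : ∀ a b : V, Step ends (insert e T) a b →
      (if Quot.mk (Step ends T) a = Quot.mk (Step ends T) y then Quot.mk (Step ends T) x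
        else Quot.mk (Step ends T) a) =
      (if Quot.mk (Step ends T) b = Quot.mk (Step ends T) y then Quot.mk (Step ends T) x
        else Quot.mk (Step ends T) b) := by
    rintro a b ⟨e', he', hab⟩
    rcases he' with rfl | he'
    · rw [hxy, Sym2.eq_iff] at hab
      rcases hab with ⟨rfl, rfl⟩ | ⟨rfl, rfl⟩
      · simp
      · simp
    · have : Quot.mk (Step ends T) a = Quot.mk (Step ends T) b := Quot.sound ⟨e', he', hab⟩
      rw [this]
  obtain ⟨f, hf⟩ : ∃ f : Quot (Step ends (insert e T)) → Quot (Step ends T), ∀ z,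
      f (Quot.mk _ z) = if Quot.mk (Step ends T) z = Quot.mk (Step ends T) y
        then Quot.mk (Step ends T) x else Quot.mk (Step ends T) z :=
    ⟨Quot.lift _ hwd, fun z => rfl⟩
  obtain ⟨g, hg0, hg⟩ : ∃ g : Option (Quot (Step ends (insert e T))) → Quot (Step ends T),
      g none = Quot.mk _ y ∧ ∀ q, g (some q) = f q :=
    ⟨fun o => o.elim (Quot.mk _ y) f, rfl, fun q => rfl⟩
  have hsurj : Function.Surjective g := by
    intro q
    induction q using Quot.ind with
    | _ z =>
      by_cases h : Quot.mk (Step ends T) z = Quot.mk (Step ends T) y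
      · exact ⟨none, by rw [hg0, h]⟩
      · exact ⟨some (Quot.mk _ z), by rw [hg, hf, if_neg h]⟩
  unfold ncl
  by_cases hfin : Finite (Quot (Step ends (insert e T)))
  · have h1 := Nat.card_le_card_of_surjective g hsurj
    rwa [Finite.card_option] at h1
  · have hinf : ¬ Finite (Quot (Step ends T)) := by
      intro h
      apply hfin
      have hq : ∀ a b : V, Step ends T a b →
          Quot.mk (Step ends (insert e T)) a = Quot.mk (Step ends (insert e T)) b := by
        rintro a b ⟨e', he', hab⟩
        exact Quot.sound ⟨e', Set.mem_insert_of_mem _ he', hab⟩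
      apply Finite.of_surjective (Quot.lift (fun z => Quot.mk (Step ends (insert e T)) z) hq)
      intro q
      induction q using Quot.ind with
      | _ z => exact ⟨Quot.mk _ z, rfl⟩
    rw [not_finite_iff_infinite] at hinf
    rw [Nat.card_eq_zero_of_infinite]
    exact Nat.zero_le _

variable {d : ℕ}

lemma twb_op (Λ T : Finset (Ed d)) (e : Ed d) (_he : e ∈ Λ) [DecidableEq (Ed d)] :
    op (exw Λ (insert e T)) = insert e (op (exw Λ T)) := by
  ext f
  unfold op exw ext
  simp only [mem_ofPred_eq, Set.mem_insert_iff]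
  by_cases hf : f ∈ Λ
  · rw [if_pos hf, if_pos hf]
    simp
  · rw [if_neg hf, if_neg hf]
    simp

/-- finite energy for one edge -/
lemma twb_edge (hCONT : ST_CONT) (β : ℝ) (hβ : 0 < β) (Λ : Finset (Ed d)) (e : Ed d) :
    (Real.exp (2 * β) - 1) / (Real.exp (2 * β) + 1) ≤ PW β Λ (UF {e}) := by
  classical
  obtain ⟨a, ha⟩ : ∃ a : ℝ, a = Real.exp (2 * β) - 1 := ⟨_, rfl⟩
  have ha0 : 0 < a := by
    rw [ha]
    have := Real.add_one_lt_exp (x := 2 * β) (by positivity)
    linarith
  have e1 : (Real.exp (2 * β) - 1) / (Real.exp (2 * β) + 1) = a / (a + 2) := by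
    rw [ha]
    congr 1
    ring
  rw [e1]
  by_cases he : e ∈ Λ
  swap
  · obtain ⟨-, h⟩ := hCONT d Λ
    obtain ⟨h1, -, -, -, h2⟩ := h β hβ.le
    have h3 : PW β Λ (UF {e}) = PW β Λ Set.univ := by
      apply h2
      intro T hT
      simp only [Set.mem_univ, iff_true]
      intro f hf
      rw [Finset.mem_singleton] at hf
      rw [hf]
      unfold exw ext
      rw [if_neg he]
    rw [h3, h1, div_le_one (by positivity)]
    linarith
  · obtain ⟨Λ', he', rfl⟩ : ∃ Λ', e ∉ Λ' ∧ Λ = insert e Λ' :=
      ⟨Λ.erase e, Finset.notMem_erase _ _, (Finset.insert_erase he).symm⟩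
    unfold PW
    rw [Finset.sum_powerset_insert he', Finset.sum_powerset_insert he']
    have h1 : ∀ T ∈ Λ'.powerset, (UF {e} : Set (Cfg d)).indicator
        (fun _ => wW β (insert e Λ') T) (exw (insert e Λ') T) = 0 := by
      intro T hT
      rw [Set.indicator_of_notMem]
      intro h
      have h2 := h e (Finset.mem_singleton_self e)
      unfold exw ext at h2
      rw [if_pos (Finset.mem_insert_self e Λ'), decide_eq_true_eq] at h2
      exact he' (Finset.mem_powerset.mp hT h2)
    have h2 : ∀ T ∈ Λ'.powerset, (UF {e} : Set (Cfg d)).indicator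
        (fun _ => wW β (insert e Λ') (insert e T)) (exw (insert e Λ') (insert e T)) =
        wW β (insert e Λ') (insert e T) := by
      intro T hT
      rw [Set.indicator_of_mem]
      intro f hf
      rw [Finset.mem_singleton] at hf
      rw [hf]
      unfold exw ext
      rw [if_pos (Finset.mem_insert_self e Λ')]
      simp
    rw [Finset.sum_congr rfl h1, Finset.sum_congr rfl h2, Finset.sum_const_zero, zero_add]
    have hw : ∀ T : Finset (Ed d), 0 < wW β (insert e Λ') T := fun T => by
      unfold wW
      rw [← ha]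
      positivity
    have h3 : ∀ T ∈ Λ'.powerset, a / 2 * wW β (insert e Λ') T ≤
        wW β (insert e Λ') (insert e T) := by
      intro T hT
      have heT : e ∉ T := fun h => he' (Finset.mem_powerset.mp hT h)
      unfold wW
      rw [← ha, twb_op _ _ _ (Finset.mem_insert_self e Λ'), Finset.card_insert_of_notMem heT]
      have h4 := twb_ncl (le (d := d)) (op (exw (insert e Λ') T)) e
      have h5 : (2 : ℝ) ^ ncl le (op (exw (insert e Λ') T)) ≤
          2 * 2 ^ ncl le (insert e (op (exw (insert e Λ') T))) := by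
        rw [← pow_succ']
        exact pow_le_pow_right₀ (by norm_num) h4
      have h6 : 0 < a ^ T.card := by positivity
      rw [pow_succ]
      nlinarith [mul_le_mul_of_nonneg_left h5 (mul_pos ha0 h6).le]
    have h4 := Finset.sum_le_sum h3
    rw [← Finset.mul_sum] at h4
    have h5 : 0 < ∑ T ∈ Λ'.powerset, wW β (insert e Λ') T :=
      Finset.sum_pos (fun T _ => hw T) ⟨∅, Finset.empty_mem_powerset _⟩
    have h6 : 0 < ∑ T ∈ Λ'.powerset, wW β (insert e Λ') (insert e T) :=
      Finset.sum_pos (fun T _ => hw _) ⟨∅, Finset.empty_mem_powerset _⟩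
    rw [div_le_div_iff₀ (by positivity) (by positivity)]
    nlinarith

/-! ### automorphisms -/

/-- translations -/
def twb_tr (a : Fin d → ℤ) : lat d ≃g lat d where
  toEquiv := Equiv.addRight a
  map_rel_iff' := by
    intro x y
    show ∑ i, |(x + a) i - (y + a) i| = 1 ↔ ∑ i, |x i - y i| = 1
    simp

/-- negation -/
def twb_neg : lat d ≃g lat d where
  toEquiv := Equiv.neg _
  map_rel_iff' := by
    intro x y
    show ∑ i, |(-x) i - (-y) i| = 1 ↔ ∑ i, |x i - y i| = 1
    have : ∀ i, |(-x) i - (-y) i| = |x i - y i| := fun i => by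
      rw [← abs_neg]
      congr 1
      simp
      ring
    simp only [this]

/-- permutations -/
def twb_perm (π : Equiv.Perm (Fin d)) : lat d ≃g lat d where
  toFun x := fun i => x (π i)
  invFun x := fun i => x (π.symm i)
  left_inv := by
    intro x
    funext i
    simp
  right_inv := by
    intro x
    funext i
    simp
  map_rel_iff' := by
    intro x y
    show ∑ i, |x (π i) - y (π i)| = 1 ↔ ∑ i, |x i - y i| = 1
    rw [Equiv.sum_comp π (fun i => |x i - y i|)]

/-- flips -/
def twb_flip (i : Fin d) : lat d ≃g lat d where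
  toFun x := Function.update x i (-(x i))
  invFun x := Function.update x i (-(x i))
  left_inv := by
    intro x
    simp
  right_inv := by
    intro x
    simp
  map_rel_iff' := by
    intro x y
    show ∑ j, |Function.update x i (-(x i)) j - Function.update y i (-(y i)) j| = 1 ↔
      ∑ i, |x i - y i| = 1
    have : ∀ j, |Function.update x i (-(x i)) j - Function.update y i (-(y i)) j| =
        |x j - y j| := fun j => by
      by_cases h : j = i
      · subst h
        rw [Function.update_self, Function.update_self, ← abs_neg]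
        congr 1
        ring
      · rw [Function.update_of_ne h, Function.update_of_ne h]
    simp only [this]

lemma twb_CN (hINV : ST_INV) (g : lat d ≃g lat d) (β : ℝ) (x y : Fin d → ℤ) :
    mW β (CN (g x) (g y)) = mW β (CN x y) := by
  obtain ⟨-, h1, -, h2⟩ := hINV d g
  rw [← h1, h2]

lemma twb_IN (hINV : ST_INV) (g : lat d ≃g lat d) (β : ℝ) (x : Fin d → ℤ) :
    mW β (IN (g x)) = mW β (IN x) := by
  obtain ⟨-, -, h1, h2⟩ := hINV d g
  rw [← h1, h2]

lemma twb_isolated (d : ℕ) (x : Fin d → ℤ) (hx : x ≠ 0) :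
    exw (inE (Finset.Icc (-1) 1)) ∅ ∉ CN (0 : Fin d → ℤ) x := by
  classical
  intro h
  have h' : Relation.ReflTransGen (Step le (op (exw (inE (Finset.Icc (-1) 1)) ∅)))
    (0 : Fin d → ℤ) x := h
  rcases Relation.ReflTransGen.cases_head h' with h1 | ⟨c, ⟨e, he, hec⟩, -⟩
  · exact hx h1.symm
  · have hadj : (lat d).Adj 0 c := by
      have h2 := e.2
      have h3 : (e : Sym2 (Fin d → ℤ)) = s(0, c) := hec
      rw [h3] at h2
      exact h2
    have hadj' : ∑ i, |(0 : Fin d → ℤ) i - c i| = 1 := hadj
    have hc : ∀ i, |c i| ≤ 1 := fun i => by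
      rw [← hadj']
      have := Finset.single_le_sum (f := fun i => |(0 : Fin d → ℤ) i - c i|)
        (fun i _ => abs_nonneg _) (Finset.mem_univ i)
      simpa using this
    have hmem : e ∈ inE (Finset.Icc (-1 : Fin d → ℤ) 1) := by
      unfold inE
      rw [Finset.mem_subtype, Finset.mem_sym2_iff]
      intro a ha
      have h3 : (e : Sym2 (Fin d → ℤ)) = s(0, c) := hec
      rw [h3, Sym2.mem_iff] at ha
      rw [Finset.mem_Icc]
      rcases ha with rfl | rfl
      · constructor
        · intro i
          simp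
        · intro i
          simp
      · constructor
        · intro i
          have := (abs_le.mp (hc i)).1
          simpa using this
        · intro i
          have := (abs_le.mp (hc i)).2
          simpa using this
    have h4 : exw (inE (Finset.Icc (-1) 1)) ∅ e = true := he
    unfold exw ext at h4
    rw [if_pos hmem] at h4
    simp at h4

lemma twb_zero (x : Fin d → ℤ) (hx : x ≠ 0) :
    PW 0 (inE (Finset.Icc (-1) 1)) (CN (0 : Fin d → ℤ) x) = 0 := by
  classical
  unfold PW
  rw [Finset.sum_eq_zero, zero_div]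
  intro T hT
  by_cases h : T = ∅
  · rw [h, Set.indicator_of_notMem (twb_isolated d x hx)]
  · unfold wW
    have h2 : T.card ≠ 0 := fun h3 => h (Finset.card_eq_zero.mp h3)
    have h3 : (Real.exp (2 * 0) - 1) ^ T.card = 0 := by
      rw [mul_zero, Real.exp_zero, sub_self, zero_pow h2]
    rw [h3, zero_mul]
    simp

theorem st_TWB (hINV : ST_INV) (hLIM : ST_LIM) (hFKG : ST_FKG) (hCONT : ST_CONT)
    (hUPS : ST_UPS) (hLATC : ST_LATC) : ST_TWB := by
  intro d hd β hβ
  obtain ⟨hL, -⟩ := hLIM d β hβ
  have hle : ∀ (x y : Fin d → ℤ) (Λ : Finset (Ed d)), mW β (CN x y) ≤ PW β Λ (CN x y) :=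
    fun x y Λ => (hL _ (hUPS d x y ∅).1).2.2.2 Λ
  have hnn : ∀ (Λ : Finset (Ed d)) (A : Set (Cfg d)), 0 ≤ PW β Λ A := fun Λ A => by
    obtain ⟨-, h⟩ := hCONT d Λ
    obtain ⟨-, h0, hm, -⟩ := h β hβ
    rw [← h0]
    exact hm _ _ (empty_subset _)
  have hmono : ∀ (Λ : Finset (Ed d)) (A B : Set (Cfg d)), A ⊆ B → PW β Λ A ≤ PW β Λ B :=
    fun Λ A B h => by
      obtain ⟨-, h'⟩ := hCONT d Λ
      exact (h' β hβ).2.2.1 A B h
  have huniv : ∀ Λ : Finset (Ed d), PW β Λ univ = 1 := fun Λ => by
    obtain ⟨-, h'⟩ := hCONT d Λ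
    exact (h' β hβ).1
  have hmnn : ∀ A : Set (Cfg d), 0 ≤ mW β A := fun A => le_ciInf fun Λ => hnn Λ A
  have hmul : ∀ x y z : Fin d → ℤ, mW β (CN x y) * mW β (CN y z) ≤ mW β (CN x z) := by
    intro x y z
    apply le_ciInf
    intro Λ
    have h1 := hFKG d β hβ Λ (CN x y) (CN y z) (hUPS d x y ∅).1 (hUPS d y z ∅).1
    have h2 := hmono Λ (CN x y ∩ CN y z) (CN x z) (by
      rintro ω ⟨h3, h4⟩
      exact Relation.ReflTransGen.trans h3 h4)
    have h3 := mul_le_mul (hle x y Λ) (hle y z Λ) (hmnn _) (hnn Λ _)
    linarith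
  have htr : ∀ x y : Fin d → ℤ, mW β (CN x y) = S2 β (y - x) := by
    intro x y
    have := twb_CN hINV (twb_tr x) β 0 (y - x)
    have e1 : twb_tr x (0 : Fin d → ℤ) = x := zero_add x
    have e2 : twb_tr x (y - x) = y := sub_add_cancel y x
    rw [e1, e2] at this
    exact this
  refine ⟨⟨?_, fun x => hmnn _, ?_, ?_, ?_, ?_, ?_⟩, htr, ?_, ?_, ?_⟩
  · have h1 : CN (0 : Fin d → ℤ) 0 = univ := by
      ext ω
      simp only [mem_univ, iff_true]
      exact Relation.ReflTransGen.refl
    unfold S2 mW
    rw [h1]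
    simp only [huniv]
    exact ciInf_const
  · intro x
    refine (hle 0 x ∅).trans ?_
    rw [← huniv ∅]
    exact hmono _ _ _ (subset_univ _)
  · intro x
    have := twb_CN hINV twb_neg β 0 x
    have e1 : twb_neg (0 : Fin d → ℤ) = 0 := neg_zero
    rw [e1] at this
    exact this
  · intro π x
    exact twb_CN hINV (twb_perm π) β 0 x
  · intro i x
    have := twb_CN hINV (twb_flip i) β 0 x
    have e1 : twb_flip i (0 : Fin d → ℤ) = 0 := by
      show Function.update (0 : Fin d → ℤ) i (-((0 : Fin d → ℤ) i)) = 0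
      simp
    rw [e1] at this
    exact this
  · intro x y
    have := hmul 0 x (x + y)
    rw [htr x (x + y), add_sub_cancel_left] at this
    exact this
  · intro x
    have := twb_IN hINV (twb_tr x) β 0
    have e1 : twb_tr x (0 : Fin d → ℤ) = x := zero_add x
    rw [e1] at this
    exact this
  · intro hβ' x
    obtain ⟨h1, -, -⟩ := hLATC d hd
    have h2 : Relation.ReflTransGen (Step le (op (fun _ : Ed d => true))) (0 : Fin d → ℤ) x :=
      h1 0 x
    have hc : 0 < (Real.exp (2 * β) - 1) / (Real.exp (2 * β) + 1) := by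
      have := Real.add_one_lt_exp (x := 2 * β) (by positivity)
      have h3 := Real.exp_pos (2 * β)
      apply div_pos
      · linarith
      · linarith
    show 0 < mW β (CN 0 x)
    induction h2 with
    | refl =>
      refine hc.trans_le ?_
      apply le_ciInf
      intro Λ
      have h3 : CN (0 : Fin d → ℤ) 0 = univ := by
        ext ω
        simp only [mem_univ, iff_true]
        exact Relation.ReflTransGen.refl
      rw [h3, huniv, div_le_one (by positivity)]
      linarith
    | tail h3 h4 ih =>
      rename_i b c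
      refine (mul_pos ih ?_).trans_le (hmul 0 b c)
      obtain ⟨e, he, hec⟩ := h4
      refine hc.trans_le ?_
      apply le_ciInf
      intro Λ
      refine (twb_edge hCONT β hβ' Λ e).trans (hmono _ _ _ ?_)
      intro ω hω
      apply Relation.ReflTransGen.single
      exact ⟨e, hω e (Finset.mem_singleton_self e), hec⟩
  · intro h0 x hx
    apply le_antisymm _ (hmnn _)
    refine (hle 0 x (inE (Finset.Icc (-1) 1))).trans ?_
    rw [h0, twb_zero x hx]

end IIC
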